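import Mathlib

/-! Levels as pairs (block, level of the block): sums over levels, gap levels, sums along progressions. -/

set_option autoImplicit false

namespace Pool.Agent.Helper82.FW

open Finset

section
variable {M : Type} [AddCommMonoid M]

/-- sums over levels are sums over blocks and levels of the block -/
theorem sum_blocks (L Pb : ℕ) (f : ℕ → ℕ → M) :
    ∑ m ∈ range (L * Pb), f (m / Pb) (m % Pb) = ∑ i ∈ range L, ∑ s ∈ range Pb, f i s := by
  induction L with
  | zero => simp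
  | succ L ih =>
    rw [Nat.succ_mul, sum_range_add, ih, sum_range_succ]
    congr 1
    refine sum_congr rfl fun s hs => ?_
    have hs' : s < Pb := mem_range.mp hs
    have h1 : (L * Pb + s) / Pb = L := by
      rw [add_comm, Nat.add_mul_div_right _ _ (by omega), Nat.div_eq_of_lt hs', zero_add]
    have h2 : (L * Pb + s) % Pb = s := by
      rw [mul_comm, Nat.mul_add_mod, Nat.mod_eq_of_lt hs']
    rw [h1, h2]

/-- the levels with `s < S` in every block -/
theorem sum_blocks_lt (L Pb S : ℕ) (hS : S ≤ Pb) (f : ℕ → ℕ → M) :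
    ∑ m ∈ range (L * Pb), (if m % Pb < S then f (m / Pb) (m % Pb) else 0) =
      ∑ i ∈ range L, ∑ s ∈ range S, f i s := by
  rw [sum_blocks L Pb (fun i s => if s < S then f i s else 0)]
  refine sum_congr rfl fun i _ => ?_
  rw [← sum_filter]
  refine sum_congr ?_ fun _ _ => rfl
  ext s
  simp only [mem_filter, mem_range]
  omega

/-- the same as a sum over the filtered set of levels -/
theorem sum_filter_lt (L Pb S : ℕ) (hS : S ≤ Pb) (f : ℕ → ℕ → M) :
    ∑ m ∈ (range (L * Pb)).filter (fun m => m % Pb < S), f (m / Pb) (m % Pb) =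
      ∑ i ∈ range L, ∑ s ∈ range S, f i s := by
  rw [sum_filter, sum_blocks_lt L Pb S hS]

end

/-- number of levels with `s < S` -/
theorem card_lt (L Pb S : ℕ) (hS : S ≤ Pb) : ((range (L * Pb)).filter (fun m => m % Pb < S)).card = L * S := by
  have h1 := sum_filter_lt (M := ℕ) L Pb S hS (fun _ _ => 1)
  rw [sum_const, smul_eq_mul, mul_one] at h1
  rw [h1]
  simp

/-- number of gap levels -/
theorem card_gap (L Pb S : ℕ) (hS : S ≤ Pb) :
    ((range (L * Pb)).filter (fun m => ¬ m % Pb < S)).card = L * (Pb - S) := by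
  have h1 := card_filter_add_card_filter_not (s := range (L * Pb)) (fun m => m % Pb < S)
  rw [card_lt L Pb S hS, card_range] at h1
  rw [Nat.mul_sub]
  omega

/-- number of gap levels below any level -/
theorem card_gap_le (n Pb S : ℕ) (hP : 0 < Pb) (hS : S ≤ Pb) :
    ((range n).filter (fun m => ¬ m % Pb < S)).card ≤ (n / Pb + 1) * (Pb - S) := by
  rw [← card_gap (n / Pb + 1) Pb S hS]
  apply card_le_card
  apply filter_subset_filter
  intro m hm
  rw [mem_range] at hm ⊢
  exact hm.trans (Nat.lt_mul_of_div_lt (Nat.lt_succ_self _) hP)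

/-- sums of a nonnegative function along an injective sequence of levels -/
theorem sum_inj {ι : Type} (M : ℕ) (g : ℕ → ℝ) (hg : ∀ J, J < M → 0 ≤ g J) (T : Finset ι) (f : ι → ℕ)
    (hf : ∀ s ∈ T, ∀ t ∈ T, f s = f t → s = t) (hM : ∀ t ∈ T, f t < M) :
    ∑ t ∈ T, g (f t) ≤ ∑ J ∈ range M, g J := by
  classical
  rw [← sum_image (f := g) (g := f) (fun s hs t ht h => hf s hs t ht h)]
  apply sum_le_sum_of_subset_of_nonneg
  · intro J hJ
    obtain ⟨t, ht, rfl⟩ := mem_image.mp hJ
    exact mem_range.mpr (hM t ht)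
  · intro J hJ _
    exact hg J (mem_range.mp hJ)

/-- the same when levels outside do not count -/
theorem sum_inj_ite {ι : Type} (M : ℕ) (g : ℕ → ℝ) (hg : ∀ J, J < M → 0 ≤ g J) (T : Finset ι) (f : ι → ℕ)
    (hf : ∀ s ∈ T, ∀ t ∈ T, f s = f t → s = t) :
    ∑ t ∈ T, (if f t < M then g (f t) else 0) ≤ ∑ J ∈ range M, g J := by
  classical
  rw [← sum_filter]
  refine sum_inj M g hg _ f (fun s hs t ht h => hf s (mem_filter.mp hs).1 t (mem_filter.mp ht).1 h) ?_
  exact fun t ht => (mem_filter.mp ht).2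

theorem prog_inj {R : ℕ} (hR : 0 < R) (j0 X : ℕ) {s t : ℕ} (h : j0 + s * R + X = j0 + t * R + X) : s = t := by
  have h1 : s * R = t * R := by omega
  exact Nat.eq_of_mul_eq_mul_right hR h1

/-- sums along a progression -/
theorem sum_prog (M j0 R X n : ℕ) (hR : 0 < R) (g : ℕ → ℝ) (hg : ∀ J, J < M → 0 ≤ g J)
    (hM : ∀ t, t < n → j0 + t * R + X < M) : ∑ t ∈ range n, g (j0 + t * R + X) ≤ ∑ J ∈ range M, g J :=
  sum_inj M g hg (range n) (fun t => j0 + t * R + X) (fun _ _ _ _ h => prog_inj hR j0 X h)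
    (fun t ht => hM t (mem_range.mp ht))

/-- sums along a progression, levels outside do not count -/
theorem sum_prog_ite (M j0 R X n : ℕ) (hR : 0 < R) (g : ℕ → ℝ) (hg : ∀ J, J < M → 0 ≤ g J) :
    ∑ t ∈ range n, (if j0 + t * R + X < M then g (j0 + t * R + X) else 0) ≤ ∑ J ∈ range M, g J :=
  sum_inj_ite M g hg (range n) (fun t => j0 + t * R + X) (fun _ _ _ _ h => prog_inj hR j0 X h)

/-- number of bad levels along a progression -/
theorem card_prog (M j0 R X n : ℕ) (hR : 0 < R) (bad : ℕ → Prop) [DecidablePred bad]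
    (hM : ∀ t, t < n → j0 + t * R + X < M) :
    ((range n).filter (fun t => bad (j0 + t * R + X))).card ≤ ((range M).filter bad).card := by
  apply card_le_card_of_injOn (fun t => j0 + t * R + X)
  · intro t ht
    rw [coe_filter, Set.mem_ofPred_eq, mem_range] at ht
    rw [coe_filter, Set.mem_ofPred_eq, mem_range]
    exact ⟨hM t ht.1, ht.2⟩
  · intro s _ t _ h
    exact prog_inj hR j0 X h

/-- the same with several offsets: `∑_t ∑_i g (j0 + t R + X i) ≤ #I * ∑_J g J` -/
theorem sum_prog_off {ι : Type} (I : Finset ι) (X : ι → ℕ) (M j0 R n : ℕ) (hR : 0 < R) (g : ℕ → ℝ)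
    (hg : ∀ J, J < M → 0 ≤ g J) :
    ∑ t ∈ range n, ∑ i ∈ I, (if j0 + t * R + X i < M then g (j0 + t * R + X i) else 0) ≤
      I.card * ∑ J ∈ range M, g J := by
  rw [sum_comm]
  refine (sum_le_card_nsmul _ _ _ fun i _ => sum_prog_ite M j0 R (X i) n hR g hg).trans (le_of_eq ?_)
  rw [nsmul_eq_mul]

/-- random offsets: for every point the sum over the progression is at most the sum over the levels -/
theorem sum_prog_law {Ω : Type} [Fintype Ω] (w : Ω → ℝ) (hw : ∀ ω, 0 ≤ w ω) (X : Ω → ℕ) (b : Ω → ℕ → ℝ)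
    (M j0 R n : ℕ) (hR : 0 < R) (hb : ∀ ω J, J < M → 0 ≤ b ω J) :
    ∑ t ∈ range n, ∑ ω, w ω * (if j0 + t * R + X ω < M then b ω (j0 + t * R + X ω) else 0) ≤
      ∑ J ∈ range M, ∑ ω, w ω * b ω J := by
  rw [sum_comm]
  have h1 : ∑ J ∈ range M, ∑ ω, w ω * b ω J = ∑ ω, w ω * ∑ J ∈ range M, b ω J := by
    rw [sum_comm]
    exact sum_congr rfl fun ω _ => (mul_sum _ _ _).symm
  rw [h1]
  refine sum_le_sum fun ω _ => ?_
  rw [← mul_sum]
  exact mul_le_mul_of_nonneg_left (sum_prog_ite M j0 R (X ω) n hR (b ω) (hb ω)) (hw ω)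

end Pool.Agent.Helper82.FW
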